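import Pool.Agent.Helper886.HCube.Card
import Pool.Agent.Helper886.HCube.Numeric

set_option autoImplicit false

namespace Pool.Agent.Results.MP_f73734_co.HamiltonCubeCount

open Pool.Agent.Helper886.HCube Function

/-- The `n`-dimensional cube graph `Q_n`: the vertices are the 0-1 vectors of length `n`, and two
vertices are adjacent when they differ in exactly one coordinate. -/
def cube (n : ℕ) : SimpleGraph (Fin n → Bool) where
  Adj x y := ∃! i, x i ≠ y i
  symm := ⟨by
    rintro x y ⟨i, hi, hu⟩
    exact ⟨i, hi.symm, fun j hj => hu j (Ne.symm hj)⟩⟩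
  loopless := ⟨by
    rintro x ⟨i, hi, _⟩
    exact hi rfl⟩

/-- `f n`: the number of Hamiltonian circuits of `Q_n`, each counted once as a subgraph (the subgraph
formed by the vertices and edges of a closed walk which is a Hamiltonian cycle). -/
noncomputable def f (n : ℕ) : ℕ :=
  Nat.card {H : (cube n).Subgraph //
    ∃ (v : Fin n → Bool) (p : (cube n).Walk v v), p.IsHamiltonianCycle ∧ p.toSubgraph = H}

/-- relabelling of the coordinates -/
def relabel {c d h n : ℕ} (e : Idx c d h ≃ Fin n) : VV c d h ≃ (Fin n → Bool) :=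
  Equiv.arrowCongr e (Equiv.refl Bool)

theorem relabel_flip {c d h n : ℕ} (e : Idx c d h ≃ Fin n) (x : VV c d h) (i : Idx c d h) :
    (cube n).Adj (relabel e x) (relabel e (flip i x)) := by
  refine ⟨e i, ?_, ?_⟩
  · show x (e.symm (e i)) ≠ flip i x (e.symm (e i))
    rw [Equiv.symm_apply_apply, flip_same]
    cases x i <;> simp
  · intro j hj
    have hj' : x (e.symm j) ≠ flip i x (e.symm j) := hj
    by_contra hne
    apply hj'
    rw [flip_ne]
    intro h2
    exact hne (by rw [← h2, Equiv.apply_symm_apply])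

theorem card_le (c d h n : ℕ) (hn : n = c + d + ((2 * h + 1) + (2 * h + 1))) (hd : 1 ≤ d) :
    Nat.card (Ch c d h) ≤ f n := by
  classical
  have hcard : Fintype.card (Idx c d h) = n := by
    simp only [Fintype.card_sum, Fintype.card_fin]; omega
  let e : Idx c d h ≃ Fin n := Fintype.equivFinOfCardEq hcard
  let E : VV c d h ≃ (Fin n → Bool) := relabel e
  obtain ⟨L0, hL0, hL0f, hL0c⟩ := exists_L0 (d := d) c h ⟨0, hd⟩
  choose M hM1 hM2 hM3 hM4 hM5 using main_ext (c := c) (h := h) (⟨0, hd⟩ : Fin d) hL0 hL0c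
  have hham : ∀ ch : Ch c d h, ∃ p : (cube n).Walk (fun _ => false) (fun _ => false),
      p.IsHamiltonianCycle ∧ ∀ a b, p.toSubgraph.Adj a b ↔
        (b = E (LL L0 ch (E.symm a)) ∨ b = E (M ch (E.symm a))) := by
    intro ch
    refine ham_of_conn (cube n) (fun a => E (LL L0 ch (E.symm a))) (fun a => E (M ch (E.symm a)))
      ?_ ?_ ?_ ?_ ?_ ?_ _
    · intro v
      simp only [Equiv.symm_apply_apply]
      rw [LL_invol hL0 ch, Equiv.apply_symm_apply]
    · intro v
      simp only [Equiv.symm_apply_apply]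
      rw [hM1 ch, Equiv.apply_symm_apply]
    · intro v
      obtain ⟨i, hi⟩ := LL_flip hL0f ch (E.symm v)
      have h1 := relabel_flip e (E.symm v) i
      rw [← hi] at h1
      have h2 : relabel e (E.symm v) = v := E.apply_symm_apply v
      rw [h2] at h1
      exact h1
    · intro v
      obtain ⟨i, hi⟩ := hM4 ch (E.symm v)
      have h1 := relabel_flip e (E.symm v) i
      rw [← hi] at h1
      have h2 : relabel e (E.symm v) = v := E.apply_symm_apply v
      rw [h2] at h1
      exact h1
    · have h1 : Fintype.card (Fin n → Bool) = 2 ^ n := by simp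
      rw [h1]
      calc 2 < 2 ^ 2 := by norm_num
        _ ≤ 2 ^ n := Nat.pow_le_pow_right (by norm_num) (by omega)
    · intro x y
      have h1 := hM5 ch (E.symm x) (E.symm y)
      have h2 : ∀ u v, Reach (LL L0 ch) (M ch) u v → Relation.ReflTransGen
          (fun a b => b = E (LL L0 ch (E.symm a)) ∨ b = E (M ch (E.symm a))) (E u) (E v) := by
        intro u v huv
        induction huv with
        | refl => exact .refl
        | tail _ hs ih =>
          refine ih.tail ?_
          simp only [Equiv.symm_apply_apply]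
          rcases hs with hs | hs
          · left; rw [hs]
          · right; rw [hs]
      have h3 := h2 _ _ h1
      rw [Equiv.apply_symm_apply, Equiv.apply_symm_apply] at h3
      exact h3
  choose p hp1 hp2 using hham
  let φ : Ch c d h → {H : (cube n).Subgraph //
      ∃ (v : Fin n → Bool) (p : (cube n).Walk v v), p.IsHamiltonianCycle ∧ p.toSubgraph = H} :=
    fun ch => ⟨(p ch).toSubgraph, _, p ch, hp1 ch, rfl⟩
  have hφ : Injective φ := by
    intro ch ch' he
    have he' : (p ch).toSubgraph = (p ch').toSubgraph := congrArg Subtype.val he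
    have hnb : ∀ x y : VV c d h, (y = LL L0 ch x ∨ y = M ch x) ↔
        (y = LL L0 ch' x ∨ y = M ch' x) := by
      intro x y
      have h1 := hp2 ch (E x) (E y)
      have h2 := hp2 ch' (E x) (E y)
      rw [he', h2] at h1
      simp only [Equiv.symm_apply_apply, E.apply_eq_iff_eq] at h1
      exact h1.symm
    have hLL : ∀ x : VV c d h, gp x ≠ (fun _ => false) → LL L0 ch x = LL L0 ch' x := by
      intro x hg
      rcases (hnb x (LL L0 ch x)).mp (Or.inl rfl) with h1 | h1
      · exact h1
      · exfalso
        have h2 := LL_qp_ne L0 ch hg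
        rw [h1, hM3 ch' x] at h2
        exact h2 rfl
    have hMM : ∀ x : VV c d h, gp x ≠ (fun _ => false) → M ch x = M ch' x := by
      intro x hg
      rcases (hnb x (M ch x)).mp (Or.inr rfl) with h1 | h1
      · exfalso
        have h2 := LL_qp_ne L0 ch' hg
        rw [← h1, hM3 ch x] at h2
        exact h2 rfl
      · exact h1
    apply Prod.ext
    · funext gp'
      obtain ⟨⟨g, hg⟩, pv⟩ := gp'
      apply Subtype.ext
      funext q
      have h1 := hLL (mk g pv q) hg
      rw [LL_ne L0 ch (x := mk g pv q) hg, LL_ne L0 ch' (x := mk g pv q) hg] at h1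
      exact congrArg qp h1
    · funext gq
      obtain ⟨⟨g, hg⟩, ⟨q, hq⟩⟩ := gq
      apply Subtype.ext
      funext pv
      have h1 := hMM (mk g pv q) hg
      rw [hM2 ch (mk g pv q) hq, hM2 ch' (mk g pv q) hq,
        bb_ne _ ch (x := mk g pv q) hq hg, bb_ne _ ch' (x := mk g pv q) hq hg] at h1
      exact congrArg pp h1
  exact Nat.card_le_card_of_injective φ hφ

/-- There is a constant `k` with `0 < k ≤ 1/2` such that `f n > (k n)^(2^n)` for all sufficiently
large `n`. -/
theorem result : ∃ k : ℝ, 0 < k ∧ k ≤ 1 / 2 ∧ ∃ n₀ : ℕ, ∀ n : ℕ, n₀ ≤ n →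
    (k * (n : ℝ)) ^ (2 ^ n) < (f n : ℝ) := by
  obtain ⟨k, hk0, hk1, n₀, hn₀⟩ := numeric
  refine ⟨k, hk0, hk1, n₀, fun n hn => ?_⟩
  obtain ⟨c, d, h, hnn, _, hd, hlt⟩ := hn₀ n hn
  refine hlt.trans_le ((card_Ch hd).trans ?_)
  exact_mod_cast card_le c d h n hnn hd

end Pool.Agent.Results.MP_f73734_co.HamiltonCubeCount
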